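import Pool.Agent.Retired.MP_493565_co.Cayley

/-! The statement of the retired hand-in Disproof, literally, from the hand-in Cayley. -/

set_option autoImplicit false

namespace Pool.Agent.Lib.MP_493565_co.Cay

theorem disproof_of_cayley : ∀ k : ℕ, 2 ≤ k →
    ∃ (V : Type) (_ : Fintype V) (G : SimpleGraph V) (v : V),
      G.Connected ∧ Gᶜ.Connected ∧ RefinesToOrbits k G (fun _ => ()) ∧
      (∃ w : V, w ≠ v ∧ SameVertexColour k (stableWL k G (fun _ => ())) v w) ∧
      ¬ RefinesToOrbits k G (individualise (fun _ => ()) v) := by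
  intro k hk
  obtain ⟨V, _, _, G, -, h1, h2, h3⟩ := Pool.Agent.Retired.MP_493565_co.Cayley.result k
  obtain ⟨h4, h5⟩ := h3 k (by omega) le_rfl
  exact ⟨V, inferInstance, G, 1, h1, h2, h4, (h5 1).1, (h5 1).2⟩

end Pool.Agent.Lib.MP_493565_co.Cay
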