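import Pool.Agent.Lib.MP_493565_co.Indiv

/-! A Cayley graph on which the WL method fails after any one individualisation. -/

set_option autoImplicit false

namespace Pool.Agent.Lib.MP_493565_co.Cay

open Finset

variable {n : ℕ}

theorem par_edgeMat (a b : B n) (z : ZMod 2) (u : B n) :
    par u (edgeMat a b z u) = if a ≠ b ∧ (u = a ∨ u = b) then z else 0 := by
  by_cases hab : a = b
  · subst hab
    rw [if_neg (by simp)]
    unfold par
    refine Finset.sum_eq_zero fun j hj => ?_
    have hju : j ≠ u := (Finset.mem_erase.1 hj).1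
    unfold edgeMat
    rw [if_neg]
    rintro (⟨h1, h2⟩ | ⟨h1, h2⟩) <;> exact hju (h2.trans h1.symm)
  · by_cases ha : u = a
    · subst ha
      rw [edgeMat_left _ _ hab, par_single _ _ hab, if_pos ⟨hab, Or.inl rfl⟩]
    · by_cases hb : u = b
      · subst hb
        have : edgeMat a u z u = edgeMat u a z u := by
          funext j
          unfold edgeMat
          congr 1
          exact propext or_comm
        rw [this, edgeMat_left _ _ ha, par_single _ _ ha, if_pos ⟨hab, Or.inr rfl⟩]
      · rw [edgeMat_of_ne _ _ _ _ ha hb, if_neg (by tauto)]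
        simp [par]

theorem par_neg (w : B n) (f : B n → ZMod 2) : par w (-f) = -par w f := by
  unfold par
  rw [← Finset.sum_neg_distrib]
  rfl

/-- Global solutions: in layer `l` the base vertices `l` and `l + 1` are unconstrained. -/
def Z (n : ℕ) : AddSubgroup (B n → B n → B n → ZMod 2) where
  carrier := {g | (∀ l a b, g l a b = g l b a) ∧
    ∀ l a, a ≠ l → a ≠ l + 1 → par a (g l a) = 0}
  add_mem' := by
    rintro f g ⟨h1, h2⟩ ⟨h3, h4⟩
    refine ⟨fun l a b => ?_, fun l a ha hb => ?_⟩
    · simp only [Pi.add_apply, h1 l a b, h3 l a b]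
    · simp only [Pi.add_apply, par_add, h2 l a ha hb, h4 l a ha hb, add_zero]
  zero_mem' := ⟨fun _ _ _ => rfl, fun l a _ _ => by simp [par]⟩
  neg_mem' := by
    rintro f ⟨h1, h2⟩
    refine ⟨fun l a b => ?_, fun l a ha hb => ?_⟩
    · simp only [Pi.neg_apply, h1 l a b]
    · simp only [Pi.neg_apply, par_neg, h2 l a ha hb, neg_zero]

theorem zsymm (g : Z n) (l a b : B n) : g.1 l a b = g.1 l b a := g.2.1 l a b

theorem zpar (g : Z n) (l a : B n) (h1 : a ≠ l) (h2 : a ≠ l + 1) : par a (g.1 l a) = 0 :=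
  g.2.2 l a h1 h2

/-- cyclic shift of a solution -/
def sh (d : B n) (g : Z n) : Z n :=
  ⟨fun l a b => g.1 (l - d) (a - d) (b - d), fun l a b => zsymm g _ _ _, fun l a h1 h2 => by
    have h := zpar g (l - d) (a - d) (fun h => h1 (sub_left_injective h))
      (fun h => h2 (by rw [sub_add_eq_add_sub] at h; exact sub_left_injective h))
    rw [← h]
    unfold par
    refine Finset.sum_equiv (Equiv.subRight d) (fun i => ?_) (fun i _ => rfl)
    simp⟩

@[simp] theorem sh_apply (d : B n) (g : Z n) (l a b : B n) :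
    (sh d g).1 l a b = g.1 (l - d) (a - d) (b - d) := rfl

/-- the triangle on `a, b, c`, with coefficient `t l` in layer `l` -/
def tri (a b c : B n) (t : B n → ZMod 2) : Z n :=
  ⟨fun l => edgeMat a b (t l) + edgeMat b c (t l) + edgeMat c a (t l), fun l i j => by
    simp only [Pi.add_apply, edgeMat_symm _ _ _ i j], fun l u _ _ => by
    simp only [Pi.add_apply, par_add, par_edgeMat]
    have h := CharTwo.add_self_eq_zero (t l)
    by_cases h1 : u = a <;> by_cases h2 : u = b <;> by_cases h3 : u = c <;>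
      simp_all [eq_comm]⟩

theorem tri_apply (a b c : B n) (t : B n → ZMod 2) (l i j : B n) :
    (tri a b c t).1 l i j =
      edgeMat a b (t l) i j + edgeMat b c (t l) i j + edgeMat c a (t l) i j := rfl

/-- the vertices -/
@[ext] structure CV (n : ℕ) where
  g : Z n
  v : B n

def CV.equivProd : CV n ≃ Z n × B n where
  toFun x := (x.g, x.v)
  invFun p := ⟨p.1, p.2⟩
  left_inv _ := rfl
  right_inv _ := rfl

noncomputable instance : Fintype (CV n) := by
  classical
  exact Fintype.ofEquiv _ CV.equivProd.symm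

instance : Mul (CV n) := ⟨fun x y => ⟨x.g + sh x.v y.g, x.v + y.v⟩⟩
instance : One (CV n) := ⟨⟨0, 0⟩⟩
instance : Inv (CV n) := ⟨fun x => ⟨-sh (-x.v) x.g, -x.v⟩⟩

theorem mul_g (x y : CV n) : (x * y).g = x.g + sh x.v y.g := rfl
theorem mul_v (x y : CV n) : (x * y).v = x.v + y.v := rfl

instance : Group (CV n) := Group.ofLeftAxioms
  (fun x y z => by
    refine CV.ext ?_ (add_assoc _ _ _)
    simp only [mul_g, mul_v]
    refine Subtype.ext (funext fun l => funext fun a => funext fun b => ?_)
    simp only [AddSubgroup.coe_add, Pi.add_apply, sh_apply, sub_sub, add_assoc])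
  (fun x => by
    refine CV.ext ?_ (zero_add _)
    refine Subtype.ext (funext fun l => funext fun a => funext fun b => ?_)
    show (0 : ZMod 2) + x.g.1 (l - 0) (a - 0) (b - 0) = _
    simp)
  (fun x => by
    refine CV.ext ?_ (neg_add_cancel _)
    exact neg_add_cancel _)

/-- the graph -/
def CG (n : ℕ) : SimpleGraph (CV n) where
  Adj x y := x.v ≠ y.v ∧ ∀ l, x.g.1 l x.v y.v = y.g.1 l x.v y.v
  symm := ⟨fun x y h => ⟨h.1.symm, fun l => by
    rw [zsymm y.g, zsymm x.g, h.2 l]⟩⟩
  loopless := ⟨fun x h => h.1 rfl⟩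

theorem CG_adj (x y : CV n) :
    (CG n).Adj x y ↔ x.v ≠ y.v ∧ ∀ l, x.g.1 l x.v y.v = y.g.1 l x.v y.v := Iff.rfl

theorem CG_mul (g a b : CV n) : (CG n).Adj (g * a) (g * b) ↔ (CG n).Adj a b := by
  simp only [CG_adj, mul_g, mul_v, AddSubgroup.coe_add, Pi.add_apply, sh_apply, ne_eq,
    add_right_inj, add_sub_cancel_left]
  refine and_congr_right fun _ => ⟨fun h l => ?_, fun h l => h _⟩
  simpa using h (l + g.v)

theorem sameOrbit_all (a b : CV n) : SameOrbit (CG n) (fun _ => ()) a b :=
  ⟨⟨Equiv.mulLeft (b * a⁻¹), fun {x y} => CG_mul _ x y⟩, fun _ => rfl, by simp⟩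

/-- fibrewise translation -/
def lift (z : B n → Z n) (x : CV n) : CV n := ⟨x.g + z x.v, x.v⟩

def liftEquiv (z : B n → Z n) : CV n ≃ CV n where
  toFun := lift z
  invFun := lift (-z)
  left_inv x := by simp [lift]
  right_inv x := by simp [lift]

def Good (v : B n) (f : CV n → CV n) (A : Finset (CV n)) : Prop :=
  ∃ z : B n → Z n, z v = 0 ∧
    (∀ a ∈ insert v (A.image CV.v), ∀ b ∈ insert v (A.image CV.v), a ≠ b →
      ∀ l, (z a).1 l a b = (z b).1 l a b) ∧ f = lift z

theorem exists_fresh (P : Finset (B n)) (hP : P.card < n + 3) : ∃ w, w ∉ P := by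
  by_contra hcon
  push Not at hcon
  have h5 : (univ : Finset (B n)).card ≤ P.card := Finset.card_le_card fun a _ => hcon a
  simp only [Finset.card_univ, Fintype.card_fin] at h5
  omega

theorem backForth [DecidableEq (CV n)] {k : ℕ} (hk : k ≤ n) (x0 : CV n) :
    BackForth k (CG n) (individualise (fun _ => ()) x0) (Good x0.v) := by
  refine ⟨?_, ?_, ?_, ?_, ?_⟩
  · rintro f A A' ⟨z, h1, h2, h3⟩ hA
    have hs : insert x0.v (A'.image CV.v) ⊆ insert x0.v (A.image CV.v) :=
      Finset.insert_subset_insert _ (Finset.image_subset_image hA)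
    exact ⟨z, h1, fun a ha b hb => h2 a (hs ha) b (hs hb), h3⟩
  · rintro f A ⟨z, h1, h2, rfl⟩ x - y -
    exact (liftEquiv z).injective.eq_iff
  · rintro f A ⟨z, h1, h2, rfl⟩ x hx y hy
    simp only [CG_adj, lift, AddSubgroup.coe_add, Pi.add_apply]
    refine and_congr_right fun hne => forall_congr' fun l => ?_
    rw [h2 x.v (mem_insert_of_mem (mem_image_of_mem _ hx)) y.v
      (mem_insert_of_mem (mem_image_of_mem _ hy)) hne l, add_left_inj]
  · rintro f A ⟨z, h1, h2, rfl⟩ x -
    have h0 : lift z x0 = x0 := by simp [lift, h1]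
    have : lift z x = x0 ↔ x = x0 := by
      conv_lhs => rw [← h0]
      exact (liftEquiv z).injective.eq_iff
    simp only [individualise, this]
  · rintro f A ⟨z, h1, h2, rfl⟩ hA
    set P := insert x0.v (A.image CV.v) with hP
    have hPc : P.card ≤ n + 1 :=
      (Finset.card_insert_le _ _).trans (by have := Finset.card_image_le (s := A) (f := CV.v); omega)
    have key : ∀ w : B n, ∃ δ : Z n, (w ∈ P → δ = z w) ∧
        ∀ u ∈ P, u ≠ w → ∀ l, δ.1 l w u = (z u).1 l w u := by
      intro w
      by_cases hw : w ∈ P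
      · exact ⟨z w, fun _ => rfl, fun u hu huw l => h2 w hw u hu huw.symm l⟩
      · obtain ⟨w', hw'⟩ := exists_fresh (insert w P)
          (by have := Finset.card_insert_le w P; omega)
        simp only [Finset.mem_insert (a := w') (b := w), not_or] at hw'
        refine ⟨∑ u ∈ P, tri w u w' (fun l => (z u).1 l w u), fun h => absurd h hw,
          fun u hu huw l => ?_⟩
        have huw' : u ≠ w' := fun h => hw'.2 (h ▸ hu)
        rw [AddSubmonoidClass.coe_finsetSum, Finset.sum_apply, Finset.sum_apply, Finset.sum_apply,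
          Finset.sum_eq_single u]
        · simp [tri_apply, edgeMat, huw', huw, huw.symm, Ne.symm hw'.1]
        · intro b hb hbu
          have hbw : w ≠ b := fun h => hw (h ▸ hb)
          simp [tri_apply, edgeMat, huw', huw, hbw, hbu.symm, Ne.symm hw'.1]
        · exact fun h => absurd hu h
    choose δ hδ1 hδ2 using key
    refine ⟨liftEquiv δ, fun x => ⟨lift (Function.update z x.v (δ x.v)), ⟨_, ?_, ?_, rfl⟩, ?_, ?_⟩⟩
    · by_cases h : x0.v = x.v
      · rw [h, Function.update_self, hδ1 _ (h ▸ mem_insert_self _ _), ← h, h1]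
      · rw [Function.update_of_ne h, h1]
    · have hm : ∀ a ∈ insert x0.v ((insert x A).image CV.v), a ≠ x.v → a ∈ P := by
        intro a ha hax
        rw [Finset.image_insert, Finset.insert_comm] at ha
        exact (Finset.mem_insert.1 ha).resolve_left hax
      intro a ha b hb hab l
      by_cases h3 : a = x.v
      · have h4 : b ≠ x.v := fun h => hab (h3.trans h.symm)
        rw [Function.update_of_ne h4, h3, Function.update_self]
        exact hδ2 _ b (hm b hb h4) h4 l
      · by_cases h4 : b = x.v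
        · rw [Function.update_of_ne h3, h4, Function.update_self, zsymm, zsymm (δ x.v)]
          exact (hδ2 _ a (hm a ha h3) h3 l).symm
        · rw [Function.update_of_ne h3, Function.update_of_ne h4]
          exact h2 a (hm a ha h3) b (hm b hb h4) hab l
    · intro a ha
      unfold lift
      by_cases h : a.v = x.v
      · rw [h, Function.update_self,
          hδ1 _ (h ▸ mem_insert_of_mem (mem_image_of_mem _ ha))]
      · rw [Function.update_of_ne h]
    · show lift _ x = lift δ x
      unfold lift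
      rw [Function.update_self]

theorem succ_ne (l : B n) : l + 1 ≠ l := by simp

theorem two_par (h : B n → B n → ZMod 2) (l : B n) (hs : ∀ a b, a ≠ b → h a b = h b a)
    (hp : ∀ a, a ≠ l → a ≠ l + 1 → par a (h a) = 0) :
    par l (h l) + par (l + 1) (h (l + 1)) = 0 := by
  rw [← sum_par_symm h hs]
  exact (Finset.sum_eq_add_of_mem l (l + 1) (mem_univ _) (mem_univ _) (succ_ne l).symm
    fun c _ hc => hp c hc.1 hc.2).symm

/-- a path between the two unconstrained vertices of layer `v` -/
def pth (v t : B n) (h1 : t ≠ v) (h2 : t ≠ v + 1) : Z n :=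
  ⟨fun l => edgeMat (v + 1) t (if l = v then 1 else 0) + edgeMat t v (if l = v then 1 else 0),
    fun l i j => by simp only [Pi.add_apply, edgeMat_symm _ _ _ i j], fun l u h3 h4 => by
    simp only [Pi.add_apply, par_add, par_edgeMat]
    by_cases hl : l = v
    · subst hl
      by_cases hu : u = t
      · simp [hu, h1, h2.symm, CharTwo.add_self_eq_zero]
      · simp [hu, h3, h4]
    · simp [hl]⟩

theorem pth_apply (v t : B n) (h1 : t ≠ v) (h2 : t ≠ v + 1) (l : B n) :
    (pth v t h1 h2).1 l = edgeMat (v + 1) t (if l = v then 1 else 0) +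
      edgeMat t v (if l = v then 1 else 0) := rfl

theorem not_refines {k : ℕ} (hk : k ≤ n) (x0 : CV n) :
    ¬ RefinesToOrbits k (CG n) (individualise (fun _ => ()) x0) := by
  classical
  obtain ⟨g, v⟩ := x0
  obtain ⟨t, ht⟩ := exists_fresh {v, v + 1} (by have := Finset.card_le_two (a := v) (b := v + 1); omega)
  simp only [Finset.mem_insert, Finset.mem_singleton, not_or] at ht
  have hv := succ_ne v
  have h0 : ∀ l, (pth v t ht.1 ht.2).1 l v (v + 1) = 0 := by
    intro l
    simp [pth_apply, edgeMat, hv, hv.symm, Ne.symm ht.1, Ne.symm ht.2]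
  intro href
  have hg : Good v (lift (Pi.single (v + 1) (pth v t ht.1 ht.2))) {(⟨g, v + 1⟩ : CV n)} := by
    refine ⟨_, Pi.single_eq_of_ne hv.symm _, ?_, rfl⟩
    intro a ha b hb hab l
    simp only [Finset.image_singleton, Finset.mem_insert, Finset.mem_singleton] at ha hb
    rcases ha with rfl | rfl <;> rcases hb with rfl | rfl
    · exact absurd rfl hab
    · rw [Pi.single_eq_of_ne hv.symm, Pi.single_eq_same, h0]; rfl
    · rw [Pi.single_eq_of_ne hv.symm, Pi.single_eq_same, zsymm, h0]; rfl
    · exact absurd rfl hab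
  obtain ⟨φ, hc, hu⟩ := (href _ _).1 (sameColour_of_good (backForth hk ⟨g, v⟩) _ _ hg)
  have hfix : φ ⟨g, v⟩ = ⟨g, v⟩ := by
    have := hc ⟨g, v⟩
    simp only [individualise, if_true] at this
    by_contra h
    simp [h] at this
  simp only [lift, Pi.single_eq_same] at hu
  have hadj : ∀ a b : B n, a ≠ b → (CG n).Adj (φ ⟨g, a⟩) (φ ⟨g, b⟩) :=
    fun a b hab => φ.map_adj_iff.2 ⟨hab, fun _ => rfl⟩
  have hinj : Function.Injective fun a : B n => (φ ⟨g, a⟩).v := by
    intro a b hab
    by_contra hne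
    exact (hadj a b hne).1 hab
  let σ : B n ≃ B n := Equiv.ofBijective _ (Finite.injective_iff_bijective.1 hinj)
  have hσ : ∀ a, (φ ⟨g, σ.symm a⟩).v = a := fun a => σ.apply_symm_apply a
  have e1 : σ.symm v = v := by
    rw [Equiv.symm_apply_eq]
    show v = (φ ⟨g, v⟩).v
    rw [hfix]
  have e2 : σ.symm (v + 1) = v + 1 := by
    rw [Equiv.symm_apply_eq]
    show v + 1 = (φ ⟨g, v + 1⟩).v
    rw [hu]
  have t1 := two_par (fun a => (φ ⟨g, σ.symm a⟩).g.1 v a) v
    (fun a b hab => by
      have := (hadj _ _ (σ.symm.injective.ne hab)).2 v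
      rw [hσ, hσ] at this
      rw [this, zsymm])
    (fun a h1 h2 => zpar _ v a h1 h2)
  have t2 := two_par (g.1 v) v (fun a b _ => zsymm g v a b) (fun a h1 h2 => zpar g v a h1 h2)
  simp only [e1, e2, hfix, hu, AddSubgroup.coe_add, Pi.add_apply, par_add, pth_apply,
    par_edgeMat] at t1
  rw [← add_assoc, t2] at t1
  simp [hv, Ne.symm ht.2] at t1

theorem exists_ne' (x : CV n) : ∃ y, y ≠ x :=
  ⟨⟨x.g, x.v + 1⟩, fun h => succ_ne x.v (congrArg CV.v h)⟩

theorem connected (hn : 1 ≤ n) : (CG n).Connected := by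
  have same : ∀ (g : Z n) (a b : B n), (CG n).Reachable ⟨g, a⟩ ⟨g, b⟩ := by
    intro g a b
    by_cases h : a = b
    · rw [h]
    · exact SimpleGraph.Adj.reachable ⟨h, fun _ => rfl⟩
  obtain ⟨t, ht⟩ := exists_fresh ({0, 1, two} : Finset (B n))
    (by have := Finset.card_le_three (a := (0 : B n)) (b := 1) (c := two); omega)
  simp only [Finset.mem_insert, Finset.mem_singleton, not_or] at ht
  have h20 : (two : B n) ≠ 0 := two_ne_zero'
  have h21 : (two : B n) ≠ 1 := two_ne_one'
  have all : ∀ x : CV n, (CG n).Reachable x ⟨0, 0⟩ := by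
    rintro ⟨g, a⟩
    have s1 : (CG n).Adj ⟨g, 0⟩ ⟨tri 0 1 two (fun l => g.1 l 0 1), 1⟩ :=
      ⟨zero_ne_one, fun l => by simp [tri_apply, edgeMat, h20.symm, h21.symm]⟩
    have s2 : (CG n).Adj ⟨tri 0 1 two (fun l => g.1 l 0 1), 0⟩ ⟨0, t⟩ :=
      ⟨Ne.symm ht.1, fun l => by simp [tri_apply, edgeMat, h20.symm, ht.1, ht.2.1, ht.2.2]⟩
    exact (same g a 0).trans (s1.reachable.trans ((same _ 1 0).trans
      (s2.reachable.trans (same 0 t 0))))
  have : Nonempty (CV n) := ⟨1⟩
  exact ⟨fun a b => (all a).trans (all b).symm⟩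

theorem compl_connected : (CG n)ᶜ.Connected := by
  have same : ∀ (g g' : Z n) (a : B n), (CG n)ᶜ.Reachable ⟨g, a⟩ ⟨g', a⟩ := by
    intro g g' a
    by_cases h : (⟨g, a⟩ : CV n) = ⟨g', a⟩
    · rw [h]
    · exact SimpleGraph.Adj.reachable ⟨h, fun h' => h'.1 rfl⟩
  have all : ∀ x : CV n, (CG n)ᶜ.Reachable x ⟨0, 0⟩ := by
    rintro ⟨g, a⟩
    by_cases ha : a = 0
    · rw [ha]; exact same _ _ _
    · obtain ⟨t, ht⟩ := exists_fresh {a, 0}
        (by have := Finset.card_le_two (a := a) (b := 0); omega)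
      simp only [Finset.mem_insert, Finset.mem_singleton, not_or] at ht
      have s1 : (CG n)ᶜ.Adj ⟨g, a⟩ ⟨g + tri a 0 t (fun _ => 1), 0⟩ := by
        refine ⟨fun h => ha (congrArg CV.v h), fun h => ?_⟩
        have := h.2 0
        simp [tri_apply, edgeMat, ha, Ne.symm ht.1, Ne.symm ht.2] at this
      exact s1.reachable.trans (same _ _ _)
  have : Nonempty (CV n) := ⟨1⟩
  exact ⟨fun a b => (all a).trans (all b).symm⟩

end Pool.Agent.Lib.MP_493565_co.Cay
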